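import Pool.Agent.Helper4.PD.Late

/-!
# Assembly of claws in the anticomplete system
-/

set_option autoImplicit false

namespace Pool.Agent.Helper32.PD

open Finset
open scoped Classical

variable {V : Type}

theorem exists_slot {ι₀ ε : Type} [Fintype ε] (a : ε → ι₀)
    (ha : ∀ i, (univ.filter fun e => a e = i).card ≤ 3) :
    ∃ κ : ε → Fin 3, ∀ e e', a e = a e' → κ e = κ e' → e = e' := by
  have h : ∀ i, Nonempty ({e // a e = i} ↪ Fin 3) := by
    intro i
    refine Function.Embedding.nonempty_of_card_le ?_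
    rw [Fintype.card_subtype, Fintype.card_fin]
    exact ha i
  let j := fun i => (h i).some
  refine ⟨fun e => j (a e) ⟨e, rfl⟩, fun e e' hee hk => ?_⟩
  have h1 : ∀ i (h : a e' = i), j (a e') ⟨e', rfl⟩ = j i ⟨e', h⟩ := by
    rintro _ rfl
    rfl
  have h2 : j (a e) ⟨e, rfl⟩ = j (a e) ⟨e', hee.symm⟩ := hk.trans (h1 _ hee.symm)
  exact congrArg Subtype.val ((j (a e)).injective h2)

/-- Assembly of claws (`q = 2`): every `i : ι₀` has its own gadget `u i`. -/
theorem found_of_claws (F : SimpleGraph V) {ι₀ ι₁ ε : Type} [Fintype ι₀] [Fintype ι₁]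
    [Fintype ε] (a : ε → ι₀) (b : ε → ι₁) (ha : ∀ i, (univ.filter fun e => a e = i).card ≤ 3)
    (N : ℕ) (I L : Fin N × Fin 9 → Finset V)
    (f : Fin N × Fin 9 → V → V) (X O : Finset V) (ξ lam θ : ℝ) (n K : ℕ) (hn : 1 ≤ n)
    (S : Sys2 F I L f X O ξ lam θ n)
    (W : Fin N → Finset V) (ref : Fin N × Fin 9 → V) (hWc : ∀ u, (W u).card ≤ 30)
    (hWW : ∀ u u', u ≠ u' → ∀ w ∈ W u, ∀ w' ∈ W u', w ≠ w' ∧ ¬ F.Adj w w')
    (hW : ∀ u, ∀ w ∈ W u, w ∈ X ∨ w ∈ O ∨ ∃ j, w = ref (u, j))
    (href : ∀ l, ref l ∈ L l ∧ ref l ∈ W l.1) (r : Fin N × Fin 9 → ℕ) (v : ι₁ → V)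
    (hv : Function.Injective v) (hvX : ∀ i, v i ∈ X)
    (hres : ∀ i l, f l (v i) ≠ ref l ∧ (hp F (I l) (ref l) (f l (v i))).length % 2 = r l)
    (hvW : ∀ i u, ∀ w ∈ W u, v i ≠ w ∧ ¬ F.Adj (v i) w)
    (hfW : ∀ i l u, ∀ w ∈ W u, w ≠ ref l → f l (v i) ≠ w ∧ ¬ F.Adj (f l (v i)) w)
    (hvv : ∀ i j, ¬ F.Adj (v i) (v j)) (hvf : ∀ i j l, i ≠ j → ¬ F.Adj (v i) (f l (v j)))
    (u : ι₀ → Fin N) (hu : Function.Injective u)
    (hpc : ∀ i, ∃ c l D, (∀ κ, (l κ).1 = u i) ∧ ClawPiece F I ref r (W (u i)) c l D)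
    (hK : 30 * N + Fintype.card ι₁ * (9 * N + 1) ≤ K) :
    Found F a b 2 K I := by
  have C : LateCtx F I L f X O ξ lam θ n W ref v :=
    ⟨S, hWW, hW, href, hv, hvX, fun i l => (hres i l).1, hvW, hfW, hvv, hvf⟩
  choose c l D hl hD using hpc
  obtain ⟨κ, hκ⟩ := exists_slot a ha
  set p : ε → List V := fun e => D (a e) (κ e) ++ (hp F (I (l (a e) (κ e)))
    (ref (l (a e) (κ e))) (f (l (a e) (κ e)) (v (b e))) ++ [f (l (a e) (κ e)) (v (b e))]) with hp'
  -- membership in `p e`
  have hmem : ∀ e, ∀ z ∈ p e, z ∈ D (a e) (κ e) ∨ z ∈ I (l (a e) (κ e)) ∨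
      z = f (l (a e) (κ e)) (v (b e)) := by
    intro e z hz
    rw [hp'] at hz
    simp only [List.mem_cons, List.mem_append, List.not_mem_nil,
      or_false] at hz
    rcases hz with h | h | h
    · exact Or.inl h
    · exact Or.inr (Or.inl ((C.seg_spec _ _).1 z h))
    · exact Or.inr (Or.inr h)
  have hpart : ∀ e, ∀ z ∈ p e, Part I f W v (u (a e)) z := by
    intro e z hz
    rcases hmem e z hz with h | h | h
    · exact Or.inr (Or.inr ((hD (a e)).mem' _ z h))
    · exact Or.inr (Or.inl ⟨_, hl _ _, h⟩)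
    · exact Or.inl ⟨_, _, hl _ _, h⟩
  have hcpart : ∀ i, Part I f W v (u i) (c i) := fun i => Or.inr (Or.inr (hD i).mem)
  -- the references of the other legs
  have hnr : ∀ i k k', k ≠ k' → ∀ z ∈ D i k, z ≠ ref (l i k') := by
    intro i k k' hk z hz hzr
    have hlast := (hD i).last k'
    rcases List.eq_nil_or_concat (D i k') with h0 | ⟨D', w, hDw⟩
    · rw [h0] at hlast
      simp only [List.getLast?_singleton, Option.some.injEq] at hlast
      have hnd := ((hD i).path k).1
      rw [List.nodup_cons] at hnd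
      apply hnd.1
      rw [hlast, ← hzr]
      exact hz
    · rw [hDw] at hlast
      have h1 : (c i :: D'.concat w).getLast? = some w := by
        rw [List.concat_eq_append, ← List.cons_append, List.getLast?_append]
        rfl
      rw [List.concat_eq_append] at hDw
      rw [List.concat_eq_append] at h1 hlast
      rw [h1] at hlast
      have h2 : w ∈ D i k' := by
        rw [hDw]
        simp
      have h3 : w = z := (Option.some.inj hlast).trans hzr.symm
      rw [h3] at h2
      exact ((hD i).anti k k' hk z hz z h2).1 rfl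
  -- centres against the elements of `p e`
  have hcent : ∀ e j, j ≠ b e → ∀ z ∈ p e, v j ≠ z ∧ ¬ F.Adj (v j) z := by
    intro e j h1 z hz
    rcases hmem e z hz with h | h | h
    · exact C.vW j _ z ((hD _).mem' _ z h)
    · exact C.v_hub j h
    · rw [h]; exact C.v_leaf h1 _
  -- the path
  have hpath : ∀ e, IPath F (c (a e) :: (p e ++ [v (b e)])) := by
    intro e
    have h1 := ipath_glue_last ((hD (a e)).path (κ e)) ((hD (a e)).last (κ e))
      (C.half (b e) (l (a e) (κ e))) ?_
    · simpa [hp'] using h1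
    · intro d hd hdr z hz
      simp only [List.mem_append, List.mem_cons, List.not_mem_nil, or_false] at hz
      have hdW : d ∈ W (u (a e)) := by
        rcases List.mem_cons.1 hd with rfl | hd
        · exact (hD _).mem
        · exact (hD _).mem' _ d hd
      rcases hz with hz | hz | hz
      · have hz' := (C.seg_spec _ _).1 z hz
        refine ⟨C.W_ne_hub hdW hz', fun h => hdr ?_⟩
        rcases List.mem_cons.1 hd with rfl | hd
        · exact (hD (a e)).hub _ z hz' h
        · exact (hD (a e)).hub' _ _ d hd z hz' h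
      · rw [hz]; exact nn_symm (C.fW _ _ _ d hdW hdr)
      · rw [hz]; exact nn_symm (C.vW _ _ d hdW)
  -- two paths
  have hanti : ∀ e e', e ≠ e' → AntiL F (p e) (p e') := by
    intro e e' hee z hz w hw
    by_cases haa : a e = a e'
    · have hkk : κ e ≠ κ e' := fun h => hee (hκ e e' haa h)
      have hz' := hmem e z hz
      have hw' := hmem e' w hw
      rw [← haa] at hw'
      have hll : l (a e) (κ e) ≠ l (a e) (κ e') := fun h => hkk ((hD (a e)).inj h)
      rcases hz' with hz' | hz' | hz'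
      · have hzW := (hD (a e)).mem' _ z hz'
        have hzr := hnr _ _ _ hkk z hz'
        rcases hw' with hw' | hw' | hw'
        · exact (hD (a e)).anti _ _ hkk z hz' w hw'
        · exact ⟨C.W_ne_hub hzW hw', fun h => hzr ((hD (a e)).hub' _ _ z hz' w hw' h)⟩
        · rw [hw']
          exact nn_symm (C.fW _ _ _ z hzW hzr)
      · rcases hw' with hw' | hw' | hw'
        · have hwW := (hD (a e)).mem' _ w hw'
          have hwr := hnr _ _ _ hkk.symm w hw'
          exact nn_symm ⟨C.W_ne_hub hwW hz', fun h => hwr ((hD (a e)).hub' _ _ w hw' z hz' h)⟩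
        · exact C.S.hub_anti _ _ hll z hz' w hw'
        · rw [hw']
          exact nn_symm (C.leaf_hub _ hll.symm hz')
      · rw [hz']
        rcases hw' with hw' | hw' | hw'
        · exact C.fW _ _ _ w ((hD (a e)).mem' _ w hw') (hnr _ _ _ hkk.symm w hw')
        · exact C.leaf_hub _ hll hw'
        · rw [hw']
          exact C.leaf_leaf _ _ hll
    · exact C.part_anti (fun h => haa (hu h)) (hpart e z hz) (hpart e' w hw)
  -- the set
  set W₀ : Finset V := (univ.biUnion W) ∪ ((univ.image v) ∪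
    (univ.image fun z : (Fin N × Fin 9) × ι₁ => f z.1 (v z.2))) with hW₀
  have hWmem : ∀ u, ∀ w ∈ W u, w ∈ W₀ := fun u w hw =>
    mem_union_left _ (mem_biUnion.2 ⟨u, mem_univ _, hw⟩)
  have hvmem : ∀ i, v i ∈ W₀ := fun i =>
    mem_union_right _ (mem_union_left _ (mem_image_of_mem _ (mem_univ _)))
  have hfmem : ∀ l i, f l (v i) ∈ W₀ := fun l i =>
    mem_union_right _ (mem_union_right _ (mem_image.2 ⟨(l, i), mem_univ _, rfl⟩))
  have hcard : W₀.card ≤ K := by
    have h1 : (univ.biUnion W).card ≤ N * 30 := by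
      have := card_biUnion_le_card_mul (univ : Finset (Fin N)) W 30 (fun u _ => hWc u)
      simpa using this
    have h2 : (univ.image v).card ≤ Fintype.card ι₁ := by
      refine card_image_le.trans ?_
      simp
    have h3 : (univ.image fun z : (Fin N × Fin 9) × ι₁ => f z.1 (v z.2)).card ≤
        N * 9 * Fintype.card ι₁ := by
      refine card_image_le.trans ?_
      simp
    have h4 : W₀.card ≤ N * 30 + (Fintype.card ι₁ + N * 9 * Fintype.card ι₁) :=
      (card_union_le _ _).trans (Nat.add_le_add h1 ((card_union_le _ _).trans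
        (Nat.add_le_add h2 h3)))
    calc W₀.card ≤ _ := h4
      _ = 30 * N + Fintype.card ι₁ * (9 * N + 1) := by ring
      _ ≤ K := hK
  refine ⟨0, c, v, p, W₀, by norm_num, by norm_num, ⟨?_, hv, ?_, ?_, hvv,
    ?_, hpath, ?_, ?_, ?_, hanti⟩, hcard, fun i => hWmem _ _ (hD i).mem, hvmem, ?_⟩
  · intro i j h
    by_contra hij
    exact (C.WW _ _ (fun h' => hij (hu h')) _ (hD i).mem _ (hD j).mem).1 h
  · intro i j
    exact (C.vW j _ _ (hD i).mem).1.symm
  · intro i j
    by_cases hij : i = j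
    · subst hij
      exact F.loopless.irrefl _
    · exact (C.WW _ _ (fun h' => hij (hu h')) _ (hD i).mem _ (hD j).mem).2
  · intro i j h
    exact (C.vW j _ _ (hD i).mem).2 h.symm
  · intro e
    have e1 : (p e).length = (D (a e) (κ e)).length + (hp F (I (l (a e) (κ e)))
        (ref (l (a e) (κ e))) (f (l (a e) (κ e)) (v (b e)))).length + 1 := by
      rw [hp']
      simp only [List.length_cons, List.length_append, List.length_nil]
      ring
    have e2 := (hres (b e) (l (a e) (κ e))).2
    have e4 := (hD (a e)).len (κ e)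
    rw [e1]
    omega
  · intro e i hi z hz w hw
    rw [List.mem_singleton] at hz
    subst hz
    exact C.part_anti (fun h => hi (hu h)) (hcpart i) (hpart e w hw)
  · intro e i hi z hz w hw
    rw [List.mem_singleton] at hz
    subst hz
    exact hcent e _ hi w hw
  · intro e z hz
    rcases hmem e z hz with h | h | h
    · exact Or.inl (hWmem _ z ((hD _).mem' _ z h))
    · exact Or.inr ⟨_, h⟩
    · rw [h]; exact Or.inl (hfmem _ _)

end Pool.Agent.Helper32.PD
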