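import Pool.Agent.Helper4.PD.Links
import Pool.Agent.Helper4.PD.Claws
import Pool.Agent.Helper87.PD.Late
import Pool.Agent.Helper59.PD.Gadgets

/-!
# The anticomplete system contains every subcubic bipartite multigraph
-/

set_option autoImplicit false

namespace Pool.Agent.Helper32.PD

open Finset
open scoped Classical

variable {V : Type}

theorem Sys2.comp {F : SimpleGraph V} {Λ Λ' : Type} {I L : Λ → Finset V} {f : Λ → V → V}
    {X O : Finset V} {ξ lam θ : ℝ} {n : ℕ} (S : Sys2 F I L f X O ξ lam θ n) (φ : Λ' → Λ)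
    (hφ : Function.Injective φ) :
    Sys2 F (fun l => I (φ l)) (fun l => L (φ l)) (fun l => f (φ l)) X O ξ lam θ n where
  conn := fun l => S.conn _
  hub_anti := fun l l' h => S.hub_anti _ _ (fun h' => h (hφ h'))
  leaf_not := fun l => S.leaf_not _
  leaf_adj := fun l => S.leaf_adj _
  leaf_anti := fun l l' h => S.leaf_anti _ _ (fun h' => h (hφ h'))
  leaf_leaf := fun l l' h => S.leaf_leaf _ _ (fun h' => h (hφ h'))
  X_hub := fun x hx l => S.X_hub x hx _
  O_hub := fun x hx l => S.O_hub x hx _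
  O_leaf := fun x hx l => S.O_leaf x hx _
  f_mem := fun x hx l => S.f_mem x hx _
  sizeX := S.sizeX
  sizeO := S.sizeO
  degX := S.degX
  degO := S.degO
  good := fun x hx l => S.good x hx _
  coh := S.coh

theorem Found.comp {F : SimpleGraph V} {ι₀ ι₁ ε : Type} {a : ε → ι₀} {b : ε → ι₁} {q K : ℕ}
    {Λ Λ' : Type} {I : Λ → Finset V} (φ : Λ' → Λ) (h : Found F a b q K fun l => I (φ l)) :
    Found F a b q K I := by
  obtain ⟨g, f₀, f₁, p, W₀, h1, h2, h3, h4, h5, h6, h7⟩ := h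
  refine ⟨g, f₀, f₁, p, W₀, h1, h2, h3, h4, h5, h6, fun e v hv => ?_⟩
  rcases h7 e v hv with h | ⟨l, hl⟩
  · exact Or.inl h
  · exact Or.inr ⟨_, hl⟩

theorem W2 {ι₀ ι₁ ε : Type} [Fintype ι₀] [Fintype ι₁] [Fintype ε] (a : ε → ι₀) (b : ε → ι₁)
    (ha : ∀ i, (univ.filter fun e => a e = i).card ≤ 3)
    (hb : ∀ i, (univ.filter fun e => b e = i).card ≤ 3) (q : ℕ) (hq : q = 2 ∨ q = 3) :
    ∃ (M K : ℕ) (C : ℝ), 1 ≤ C ∧ ∀ (V : Type) (F : SimpleGraph V) (I L : Fin M → Finset V)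
      (f : Fin M → V → V) (X O : Finset V) (ξ : ℝ) (n : ℕ), 0 < ξ → 1 ≤ n →
        Sys2 F I L f X O ξ (ξ / C) (ξ / C) n → Found F a b q K I := by
  have _hb := hb
  set N : ℕ := 2 * Fintype.card ε + Fintype.card ι₀ + 1 with hN
  set P : ℕ := (30 * N + Fintype.card (ι₀ ⊕ ι₁) + 2) * (2 * Fintype.card (Fin N × Fin 9) + 3) *
    q ^ Fintype.card (Fin N × Fin 9) with hP
  set C : ℝ := 900 * N + 23 + P + 1 with hC
  have hP0 : (0 : ℝ) ≤ P := Nat.cast_nonneg _
  have hN0 : (0 : ℝ) ≤ N := Nat.cast_nonneg _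
  have hC1 : 1 ≤ C := by rw [hC]; linarith
  have hC0 : 0 < C := by linarith
  have hq0 : 0 < q := by omega
  refine ⟨N * 9, 30 * N + (Fintype.card ι₀ + Fintype.card ι₁) * (9 * N + 1), C, hC1, ?_⟩
  intro V F I L f X O ξ n hξ hn S
  have S' := S.comp (fun l : Fin N × Fin 9 => finProdFinEquiv l) finProdFinEquiv.injective
  refine Found.comp (fun l : Fin N × Fin 9 => finProdFinEquiv l) ?_
  set I' : Fin N × Fin 9 → Finset V := fun l => I (finProdFinEquiv l) with hI'
  set L' : Fin N × Fin 9 → Finset V := fun l => L (finProdFinEquiv l) with hL'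
  set f' : Fin N × Fin 9 → V → V := fun l => f (finProdFinEquiv l) with hf'
  have hθ : 0 < ξ / C := div_pos hξ hC0
  have hCθ : C * (ξ / C) = ξ := by field_simp
  obtain ⟨W, ref, hWc, hWW, hW, href, hgad⟩ := exists_gadgets F N I' L' f' X O ξ (ξ / C) (ξ / C) n q
    hn hθ hq S' (by
      have : 3 * (ξ / C) + (900 * N + 20) * (ξ / C) ≤ C * (ξ / C) := by
        rw [← add_mul]
        refine mul_le_mul_of_nonneg_right ?_ hθ.le
        rw [hC]
        linarith
      rw [hCθ] at this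
      exact this)
  have : Nonempty (Fin N × Fin 9) := ⟨(⟨0, by omega⟩, 0)⟩
  have hWcard : (univ.biUnion W).card ≤ 30 * N := by
    have := card_biUnion_le_card_mul (univ : Finset (Fin N)) W 30 (fun u _ => hWc u)
    simp only [card_univ, Fintype.card_fin] at this
    omega
  obtain ⟨r, v, hr, hv, hvX, hres, hvW, hfW, hvv, hvf⟩ := exists_late F (Λ := Fin N × Fin 9)
    (ι := ι₀ ⊕ ι₁) I' L' f' X O ξ (ξ / C) (ξ / C) n q (30 * N) hn hq0 S' (univ.biUnion W) ref
    hWcard (fun l => (href l).1) (by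
      intro w hw
      obtain ⟨u, -, hu⟩ := mem_biUnion.1 hw
      rcases hW u w hu with h | h | ⟨j, h⟩
      · exact Or.inl h
      · exact Or.inr (Or.inl h)
      · exact Or.inr (Or.inr ⟨_, h⟩)) (by
      have h1 : (((30 * N : ℕ) : ℝ) + Fintype.card (ι₀ ⊕ ι₁) + 2) *
          (2 * Fintype.card (Fin N × Fin 9) + 3) * (ξ / C) * q ^ Fintype.card (Fin N × Fin 9) =
          P * (ξ / C) := by
        rw [hP]
        push_cast
        ring
      rw [h1]
      calc (P : ℝ) * (ξ / C) < C * (ξ / C) := by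
            refine mul_lt_mul_of_pos_right ?_ hθ
            rw [hC]
            linarith
        _ = ξ := hCθ)
  have hvW' : ∀ i u, ∀ w ∈ W u, v i ≠ w ∧ ¬ F.Adj (v i) w := fun i u w hw =>
    hvW i w (mem_biUnion.2 ⟨u, mem_univ _, hw⟩)
  have hfW' : ∀ i l u, ∀ w ∈ W u, w ≠ ref l → f' l (v i) ≠ w ∧ ¬ F.Adj (f' l (v i)) w :=
    fun i l u w hw => hfW i l w (mem_biUnion.2 ⟨u, mem_univ _, hw⟩)
  -- the outcomes
  set A : ℕ → Fin N → Prop := fun g u => ∃ l l' D, l.1 = u ∧ l'.1 = u ∧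
    LinkPiece F I' ref r q g (W u) l l' D with hA
  set B : Fin N → Prop := fun u => q = 2 ∧ ∃ c l D, (∀ κ : Fin 3, (l κ).1 = u) ∧
    ClawPiece F I' ref r (W u) c l D with hB
  have hcov : (univ : Finset (Fin N)) ⊆ (univ.filter (A 0)) ∪
      ((univ.filter fun u => 1 + 1 ≠ q ∧ A 1 u) ∪ univ.filter B) := by
    intro u _
    simp only [mem_union, mem_filter, mem_univ, true_and]
    rcases hgad u r with ⟨g, l, l', D, h1, h2, h3, h4, h5⟩ | h
    · have hg : g = 0 ∨ g = 1 := by omega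
      rcases hg with rfl | rfl
      · exact Or.inl ⟨l, l', D, h3, h4, h5⟩
      · exact Or.inr (Or.inl ⟨h2, l, l', D, h3, h4, h5⟩)
    · exact Or.inr (Or.inr h)
  have hsum : N ≤ (univ.filter (A 0)).card + ((univ.filter fun u => 1 + 1 ≠ q ∧ A 1 u).card +
      (univ.filter B).card) := by
    calc N = (univ : Finset (Fin N)).card := by simp
      _ ≤ _ := card_le_card hcov
      _ ≤ _ := card_union_le _ _
      _ ≤ _ := Nat.add_le_add_left (card_union_le _ _) _
  have hemb : ∀ (κ : Type) [Fintype κ] (Z : Finset (Fin N)), Fintype.card κ ≤ Z.card →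
      ∃ u : κ → Fin N, Function.Injective u ∧ ∀ i, u i ∈ Z := by
    intro κ _ Z hZ
    have h : Nonempty (κ ↪ Z) := by
      refine Function.Embedding.nonempty_of_card_le ?_
      rw [Fintype.card_coe]
      exact hZ
    obtain ⟨φ⟩ := h
    exact ⟨fun i => (φ i).1, fun i j hij => φ.injective (Subtype.ext hij), fun i => (φ i).2⟩
  by_cases hc0 : Fintype.card ε ≤ (univ.filter (A 0)).card
  · obtain ⟨u, hu, hu'⟩ := hemb ε _ hc0
    exact found_of_links F a b N I' L' f' X O ξ (ξ / C) (ξ / C) n q 0 _ hn hq0 (by omega) S' W ref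
      hWc hWW hW href r v hv hvX hres hvW' hfW' hvv hvf u hu
      (fun e => (mem_filter.1 (hu' e)).2) le_rfl
  by_cases hc1 : Fintype.card ε ≤ (univ.filter fun u => 1 + 1 ≠ q ∧ A 1 u).card
  · obtain ⟨u, hu, hu'⟩ := hemb ε _ hc1
    rcases isEmpty_or_nonempty ε with hε | ⟨⟨e₀⟩⟩
    · exact absurd (by rw [Fintype.card_eq_zero]; exact Nat.zero_le _) hc0
    · have h2 : 1 + 1 ≠ q := ((mem_filter.1 (hu' e₀)).2).1
      exact found_of_links F a b N I' L' f' X O ξ (ξ / C) (ξ / C) n q 1 _ hn (by omega) h2 S' W ref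
        hWc hWW hW href r v hv hvX hres hvW' hfW' hvv hvf u hu
        (fun e => ((mem_filter.1 (hu' e)).2).2) le_rfl
  have hc2 : Fintype.card ι₀ ≤ (univ.filter B).card := by omega
  have hc3 : 0 < (univ.filter B).card := by omega
  obtain ⟨u₀, hu₀⟩ := card_pos.1 hc3
  have hq2 : q = 2 := ((mem_filter.1 hu₀).2).1
  obtain ⟨u, hu, hu'⟩ := hemb ι₀ _ hc2
  subst hq2
  exact found_of_claws F a b ha N I' L' f' X O ξ (ξ / C) (ξ / C) n _ hn S' W ref
    hWc hWW hW href r (fun i => v (Sum.inr i)) (fun i j h => Sum.inr_injective (hv h))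
    (fun i => hvX _) (fun i => hres _) (fun i => hvW' _) (fun i => hfW' _)
    (fun i j => hvv _ _) (fun i j l hij => hvf _ _ l (fun h => hij (Sum.inr_injective h))) u hu
    (fun i => ((mem_filter.1 (hu' i)).2).2) (by
      refine Nat.add_le_add_left (Nat.mul_le_mul_right _ ?_) _
      omega)

end Pool.Agent.Helper32.PD
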