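import Pool.Agent.Helper32.PD.Defs
import Pool.Agent.Helper32.PD.Lists
import Pool.Agent.Helper92.PD.HubPath

/-!
# Common data of the two assembly lemmas of the anticomplete system
-/

set_option autoImplicit false

namespace Pool.Agent.Helper32.PD

open Finset
open scoped Classical

variable {V : Type}

/-- the common data of the two assembly lemmas -/
structure LateCtx (F : SimpleGraph V) {ι : Type} {N : ℕ} (I L : Fin N × Fin 9 → Finset V)
    (f : Fin N × Fin 9 → V → V) (X O : Finset V) (ξ lam θ : ℝ) (n : ℕ)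
    (W : Fin N → Finset V) (ref : Fin N × Fin 9 → V) (v : ι → V) : Prop where
  S : Sys2 F I L f X O ξ lam θ n
  WW : ∀ u u', u ≠ u' → ∀ w ∈ W u, ∀ w' ∈ W u', w ≠ w' ∧ ¬ F.Adj w w'
  hW : ∀ u, ∀ w ∈ W u, w ∈ X ∨ w ∈ O ∨ ∃ j, w = ref (u, j)
  href : ∀ l, ref l ∈ L l ∧ ref l ∈ W l.1
  inj : Function.Injective v
  vX : ∀ i, v i ∈ X
  ne : ∀ i l, f l (v i) ≠ ref l
  vW : ∀ i u, ∀ w ∈ W u, v i ≠ w ∧ ¬ F.Adj (v i) w
  fW : ∀ i l u, ∀ w ∈ W u, w ≠ ref l → f l (v i) ≠ w ∧ ¬ F.Adj (f l (v i)) w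
  vv : ∀ i j, ¬ F.Adj (v i) (v j)
  vf : ∀ i j l, i ≠ j → ¬ F.Adj (v i) (f l (v j))

/-- the parts of a gadget path -/
def Part {ι : Type} {N : ℕ} (I : Fin N × Fin 9 → Finset V)
    (f : Fin N × Fin 9 → V → V) (W : Fin N → Finset V) (v : ι → V) (u : Fin N) (x : V) : Prop :=
  (∃ l i, l.1 = u ∧ x = f l (v i)) ∨ (∃ l, l.1 = u ∧ x ∈ I l) ∨ x ∈ W u

/-- swap -/
theorem nn_symm {F : SimpleGraph V} {x y : V} (h : x ≠ y ∧ ¬ F.Adj x y) : y ≠ x ∧ ¬ F.Adj y x :=
  ⟨h.1.symm, fun hh => h.2 hh.symm⟩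

namespace LateCtx

variable {F : SimpleGraph V} {ι : Type} {N : ℕ} {I L : Fin N × Fin 9 → Finset V}
    {f : Fin N × Fin 9 → V → V} {X O : Finset V} {ξ lam θ : ℝ} {n : ℕ}
    {W : Fin N → Finset V} {ref : Fin N × Fin 9 → V} {v : ι → V}

theorem X_ne_leaf (C : LateCtx F I L f X O ξ lam θ n W ref v) {x t : V} {l : Fin N × Fin 9}
    (hx : x ∈ X) (ht : t ∈ L l) : x ≠ t := by
  rintro rfl
  obtain ⟨y, hy, hxy⟩ := C.S.leaf_adj l x ht
  exact (C.S.X_hub x hx l y hy).2 hxy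

theorem leaf_hub (C : LateCtx F I L f X O ξ lam θ n W ref v) (i : ι) {l l' : Fin N × Fin 9}
    (h : l ≠ l') {y : V} (hy : y ∈ I l') : f l (v i) ≠ y ∧ ¬ F.Adj (f l (v i)) y :=
  C.S.leaf_anti l l' h _ (C.S.f_mem _ (C.vX i) l).1 y hy

theorem leaf_leaf (C : LateCtx F I L f X O ξ lam θ n W ref v) (i j : ι) {l l' : Fin N × Fin 9}
    (h : l ≠ l') : f l (v i) ≠ f l' (v j) ∧ ¬ F.Adj (f l (v i)) (f l' (v j)) :=
  C.S.leaf_leaf l l' h _ (C.S.f_mem _ (C.vX i) l).1 _ (C.S.f_mem _ (C.vX j) l').1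

theorem W_ne_hub (C : LateCtx F I L f X O ξ lam θ n W ref v) {u : Fin N} {w y : V}
    {l : Fin N × Fin 9} (hw : w ∈ W u) (hy : y ∈ I l) : w ≠ y := by
  rcases C.hW u w hw with h | h | ⟨j, rfl⟩
  · exact (C.S.X_hub w h l y hy).1
  · exact (C.S.O_hub w h l y hy).1
  · by_cases hl : (u, j) = l
    · subst hl
      rintro rfl
      exact C.S.leaf_not (u, j) _ (C.href (u, j)).1 hy
    · exact (C.S.leaf_anti _ _ hl _ (C.href (u, j)).1 y hy).1

theorem W_hub (C : LateCtx F I L f X O ξ lam θ n W ref v) {u : Fin N} {w y : V}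
    {l : Fin N × Fin 9} (hw : w ∈ W u) (hy : y ∈ I l) (hl : l.1 ≠ u) : w ≠ y ∧ ¬ F.Adj w y := by
  rcases C.hW u w hw with h | h | ⟨j, rfl⟩
  · exact C.S.X_hub w h l y hy
  · exact C.S.O_hub w h l y hy
  · refine C.S.leaf_anti _ _ ?_ _ (C.href (u, j)).1 y hy
    rintro rfl
    exact hl rfl

theorem leaf_W (C : LateCtx F I L f X O ξ lam θ n W ref v) (i : ι) {u : Fin N} {w : V}
    {l : Fin N × Fin 9} (hw : w ∈ W u) (hl : l.1 ≠ u) :
    f l (v i) ≠ w ∧ ¬ F.Adj (f l (v i)) w := by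
  refine C.fW i l u w hw ?_
  rintro rfl
  exact (C.WW l.1 u hl _ (C.href l).2 _ hw).1 rfl

theorem v_leaf (C : LateCtx F I L f X O ξ lam θ n W ref v) {i j : ι} (h : i ≠ j)
    (l : Fin N × Fin 9) : v i ≠ f l (v j) ∧ ¬ F.Adj (v i) (f l (v j)) :=
  ⟨C.X_ne_leaf (C.vX i) (C.S.f_mem _ (C.vX j) l).1, C.vf i j l h⟩

theorem v_hub (C : LateCtx F I L f X O ξ lam θ n W ref v) (i : ι) {l : Fin N × Fin 9} {y : V}
    (hy : y ∈ I l) : v i ≠ y ∧ ¬ F.Adj (v i) y := C.S.X_hub _ (C.vX i) l y hy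

theorem part_anti (C : LateCtx F I L f X O ξ lam θ n W ref v) {u u' : Fin N} (h : u ≠ u')
    {x y : V} (hx : Part I f W v u x) (hy : Part I f W v u' y) : x ≠ y ∧ ¬ F.Adj x y := by
  have hne : ∀ {l l' : Fin N × Fin 9}, l.1 = u → l'.1 = u' → l ≠ l' := by
    rintro l l' h1 h2 rfl
    exact h (h1.symm.trans h2)
  rcases hx with ⟨l, i, hl, rfl⟩ | ⟨l, hl, hx⟩ | hx
  · rcases hy with ⟨l', j, hl', rfl⟩ | ⟨l', hl', hy⟩ | hy
    · exact C.leaf_leaf i j (hne hl hl')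
    · exact C.leaf_hub i (hne hl hl') hy
    · exact C.leaf_W i hy (by rw [hl]; exact h)
  · rcases hy with ⟨l', j, hl', rfl⟩ | ⟨l', hl', hy⟩ | hy
    · exact nn_symm (C.leaf_hub j (hne hl hl').symm hx)
    · exact C.S.hub_anti l l' (hne hl hl') x hx y hy
    · exact nn_symm (C.W_hub hy hx (by rw [hl]; exact h))
  · rcases hy with ⟨l', j, hl', rfl⟩ | ⟨l', hl', hy⟩ | hy
    · exact nn_symm (C.leaf_W j hx (by rw [hl']; exact h.symm))
    · exact C.W_hub hx hy (by rw [hl']; exact h.symm)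
    · exact C.WW u u' h x hx y hy

theorem seg_spec (C : LateCtx F I L f X O ξ lam θ n W ref v) (i : ι) (l : Fin N × Fin 9) :
    HubPath F (I l) (ref l) (f l (v i)) (hp F (I l) (ref l) (f l (v i))) := by
  have h1 := (C.href l).1
  have h2 := (C.S.f_mem _ (C.vX i) l).1
  exact hp_spec F (C.S.conn l) (C.S.leaf_not l _ h1) (C.S.leaf_not l _ h2) (C.ne i l).symm
    (C.S.leaf_adj l _ h1) (C.S.leaf_adj l _ h2)

/-- the half link from the reference leaf to the centre -/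
theorem half (C : LateCtx F I L f X O ξ lam θ n W ref v) (i : ι) (l : Fin N × Fin 9) :
    IPath F (ref l :: (hp F (I l) (ref l) (f l (v i)) ++ [f l (v i), v i])) := by
  have hs := C.seg_spec i l
  have h := ipath_glue (F := F) (l := ref l :: hp F (I l) (ref l) (f l (v i))) (l' := [v i])
    (v := f l (v i)) (by simpa using hs.2)
    (ipath_pair F (C.S.f_mem _ (C.vX i) l).2.symm) ?_
  · simpa using h
  · intro x hx y hy
    rw [List.mem_singleton] at hy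
    subst hy
    refine nn_symm ?_
    rcases List.mem_cons.1 hx with rfl | hx
    · exact C.vW i l.1 _ (C.href l).2
    · exact C.v_hub i (hs.1 x hx)

end LateCtx

/-- gluing at the last element of `D` -/
theorem ipath_glue_last {F : SimpleGraph V} {D Q : List V} {t : V} (hD : IPath F D)
    (hlast : D.getLast? = some t) (hQ : IPath F (t :: Q))
    (ha : ∀ d ∈ D, d ≠ t → ∀ y ∈ Q, d ≠ y ∧ ¬ F.Adj d y) : IPath F (D ++ Q) := by
  obtain ⟨D', rfl⟩ := List.getLast?_eq_some_iff.1 hlast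
  have h := ipath_glue (F := F) hD hQ ?_
  · simpa using h
  · intro x hx y hy
    refine ha x (List.mem_append.2 (Or.inl hx)) ?_ y hy
    rintro rfl
    exact (List.nodup_append.1 hD.1).2.2 x hx x (by simp) rfl

/-- gluing at the first element of `D` -/
theorem ipath_glue_head {F : SimpleGraph V} {D Q : List V} {t : V} (hD : IPath F D)
    (hhead : D.head? = some t) (hQ : IPath F (t :: Q))
    (ha : ∀ d ∈ D, d ≠ t → ∀ y ∈ Q, d ≠ y ∧ ¬ F.Adj d y) : IPath F (Q.reverse ++ D) := by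
  have h := ipath_glue_last (F := F) (D := D.reverse) (Q := Q) (t := t) (ipath_reverse hD)
    (by rw [List.getLast?_reverse]; exact hhead) hQ
    (fun d hd => ha d (List.mem_reverse.1 hd))
  have h2 := ipath_reverse h
  simpa using h2

end Pool.Agent.Helper32.PD
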