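import Pool.Agent.Helper4.PD.Late

/-!
# Assembly of links in the anticomplete system
-/

set_option autoImplicit false

namespace Pool.Agent.Helper32.PD

open Finset
open scoped Classical

variable {V : Type}

/-- Assembly of links: every edge `e` has its own gadget `u e`. -/
theorem found_of_links (F : SimpleGraph V) {ι₀ ι₁ ε : Type} [Fintype ι₀] [Fintype ι₁]
    [Fintype ε] (a : ε → ι₀) (b : ε → ι₁) (N : ℕ) (I L : Fin N × Fin 9 → Finset V)
    (f : Fin N × Fin 9 → V → V) (X O : Finset V) (ξ lam θ : ℝ) (n q g K : ℕ) (hn : 1 ≤ n)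
    (hg : g < q) (hg' : g + 1 ≠ q) (S : Sys2 F I L f X O ξ lam θ n)
    (W : Fin N → Finset V) (ref : Fin N × Fin 9 → V) (hWc : ∀ u, (W u).card ≤ 30)
    (hWW : ∀ u u', u ≠ u' → ∀ w ∈ W u, ∀ w' ∈ W u', w ≠ w' ∧ ¬ F.Adj w w')
    (hW : ∀ u, ∀ w ∈ W u, w ∈ X ∨ w ∈ O ∨ ∃ j, w = ref (u, j))
    (href : ∀ l, ref l ∈ L l ∧ ref l ∈ W l.1) (r : Fin N × Fin 9 → ℕ) (v : ι₀ ⊕ ι₁ → V)
    (hv : Function.Injective v) (hvX : ∀ i, v i ∈ X)
    (hres : ∀ i l, f l (v i) ≠ ref l ∧ (hp F (I l) (ref l) (f l (v i))).length % q = r l)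
    (hvW : ∀ i u, ∀ w ∈ W u, v i ≠ w ∧ ¬ F.Adj (v i) w)
    (hfW : ∀ i l u, ∀ w ∈ W u, w ≠ ref l → f l (v i) ≠ w ∧ ¬ F.Adj (f l (v i)) w)
    (hvv : ∀ i j, ¬ F.Adj (v i) (v j)) (hvf : ∀ i j l, i ≠ j → ¬ F.Adj (v i) (f l (v j)))
    (u : ε → Fin N) (hu : Function.Injective u)
    (hpc : ∀ e, ∃ l l' D, l.1 = u e ∧ l'.1 = u e ∧ LinkPiece F I ref r q g (W (u e)) l l' D)
    (hK : 30 * N + (Fintype.card ι₀ + Fintype.card ι₁) * (9 * N + 1) ≤ K) :
    Found F a b q K I := by
  have C : LateCtx F I L f X O ξ lam θ n W ref v :=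
    ⟨S, hWW, hW, href, hv, hvX, fun i l => (hres i l).1, hvW, hfW, hvv, hvf⟩
  choose l l' D hl hl' hD using hpc
  set x : ε → V := fun e => v (Sum.inl (a e)) with hx
  set y : ε → V := fun e => v (Sum.inr (b e)) with hy
  set p : ε → List V := fun e => f (l e) (x e) :: ((hp F (I (l e)) (ref (l e))
    (f (l e) (x e))).reverse ++ (D e ++ (hp F (I (l' e)) (ref (l' e)) (f (l' e) (y e)) ++
      [f (l' e) (y e)]))) with hp'
  -- membership in `p e`
  have hmem : ∀ e, ∀ z ∈ p e, z = f (l e) (x e) ∨ z ∈ I (l e) ∨ z ∈ D e ∨ z ∈ I (l' e) ∨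
      z = f (l' e) (y e) := by
    intro e z hz
    rw [hp'] at hz
    simp only [List.mem_cons, List.mem_append, List.mem_reverse, List.not_mem_nil,
      or_false] at hz
    rcases hz with h | h | h | h | h
    · exact Or.inl h
    · exact Or.inr (Or.inl ((C.seg_spec _ _).1 z h))
    · exact Or.inr (Or.inr (Or.inl h))
    · exact Or.inr (Or.inr (Or.inr (Or.inl ((C.seg_spec _ _).1 z h))))
    · exact Or.inr (Or.inr (Or.inr (Or.inr h)))
  have hpart : ∀ e, ∀ z ∈ p e, Part I f W v (u e) z := by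
    intro e z hz
    rcases hmem e z hz with h | h | h | h | h
    · exact Or.inl ⟨l e, _, hl e, h⟩
    · exact Or.inr (Or.inl ⟨l e, hl e, h⟩)
    · exact Or.inr (Or.inr ((hD e).mem z h))
    · exact Or.inr (Or.inl ⟨l' e, hl' e, h⟩)
    · exact Or.inl ⟨l' e, _, hl' e, h⟩
  -- centres against the elements of `p e`
  have hcent : ∀ e i, i ≠ Sum.inl (a e) → i ≠ Sum.inr (b e) → ∀ z ∈ p e,
      v i ≠ z ∧ ¬ F.Adj (v i) z := by
    intro e i h1 h2 z hz
    rcases hmem e z hz with h | h | h | h | h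
    · rw [h]; exact C.v_leaf h1 _
    · exact C.v_hub i h
    · exact C.vW i _ z ((hD e).mem z h)
    · exact C.v_hub i h
    · rw [h]; exact C.v_leaf h2 _
  -- the path
  have hpath : ∀ e, IPath F (x e :: (p e ++ [y e])) := by
    intro e
    have hne : l e ≠ l' e := (hD e).ne
    have hxy : (Sum.inl (a e) : ι₀ ⊕ ι₁) ≠ Sum.inr (b e) := by simp
    have h1 := ipath_glue_head (hD e).path (hD e).head (C.half (Sum.inl (a e)) (l e)) ?_
    · have h2 := ipath_glue_last (t := ref (l' e)) h1 ?_ (C.half (Sum.inr (b e)) (l' e)) ?_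
      · simpa [hp'] using h2
      · rw [List.getLast?_append, (hD e).last]
        rfl
      · intro d hd hdr z hz
        simp only [List.mem_append, List.mem_reverse, List.mem_cons, List.not_mem_nil,
          or_false] at hd hz
        rcases hd with (hd | hd | hd) | hd
        · have hd' := (C.seg_spec _ _).1 d hd
          rcases hz with hz | hz | hz
          · exact C.S.hub_anti _ _ hne d hd' z ((C.seg_spec _ _).1 z hz)
          · rw [hz]; exact nn_symm (C.leaf_hub _ hne.symm hd')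
          · rw [hz]; exact nn_symm (C.v_hub _ hd')
        · rw [hd]
          rcases hz with hz | hz | hz
          · exact C.leaf_hub _ hne ((C.seg_spec _ _).1 z hz)
          · rw [hz]; exact C.leaf_leaf _ _ hne
          · rw [hz]; exact nn_symm (C.v_leaf hxy.symm _)
        · rw [hd]
          rcases hz with hz | hz | hz
          · exact C.v_hub _ ((C.seg_spec _ _).1 z hz)
          · rw [hz]; exact C.v_leaf hxy _
          · rw [hz]; exact ⟨fun h => hxy (C.inj h), C.vv _ _⟩
        · have hdW := (hD e).mem d hd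
          rcases hz with hz | hz | hz
          · have hz' := (C.seg_spec _ _).1 z hz
            exact ⟨C.W_ne_hub hdW hz', fun h => hdr ((hD e).hub' d hd z hz' h)⟩
          · rw [hz]; exact nn_symm (C.fW _ _ _ d hdW hdr)
          · rw [hz]; exact nn_symm (C.vW _ _ d hdW)
    · intro d hd hdr z hz
      simp only [List.mem_append, List.mem_cons, List.not_mem_nil, or_false] at hz
      have hdW := (hD e).mem d hd
      rcases hz with hz | hz | hz
      · have hz' := (C.seg_spec _ _).1 z hz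
        exact ⟨C.W_ne_hub hdW hz', fun h => hdr ((hD e).hub d hd z hz' h)⟩
      · rw [hz]; exact nn_symm (C.fW _ _ _ d hdW hdr)
      · rw [hz]; exact nn_symm (C.vW _ _ d hdW)
  -- the set
  set W₀ : Finset V := (univ.biUnion W) ∪ ((univ.image v) ∪
    (univ.image fun z : (Fin N × Fin 9) × (ι₀ ⊕ ι₁) => f z.1 (v z.2))) with hW₀
  have hWmem : ∀ u, ∀ w ∈ W u, w ∈ W₀ := fun u w hw =>
    mem_union_left _ (mem_biUnion.2 ⟨u, mem_univ _, hw⟩)
  have hvmem : ∀ i, v i ∈ W₀ := fun i =>
    mem_union_right _ (mem_union_left _ (mem_image_of_mem _ (mem_univ _)))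
  have hfmem : ∀ l i, f l (v i) ∈ W₀ := fun l i =>
    mem_union_right _ (mem_union_right _ (mem_image.2 ⟨(l, i), mem_univ _, rfl⟩))
  have hcard : W₀.card ≤ K := by
    have h1 : (univ.biUnion W).card ≤ N * 30 := by
      have := card_biUnion_le_card_mul (univ : Finset (Fin N)) W 30 (fun u _ => hWc u)
      simpa using this
    have h2 : (univ.image v).card ≤ Fintype.card ι₀ + Fintype.card ι₁ := by
      refine card_image_le.trans ?_
      simp
    have h3 : (univ.image fun z : (Fin N × Fin 9) × (ι₀ ⊕ ι₁) => f z.1 (v z.2)).card ≤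
        N * 9 * (Fintype.card ι₀ + Fintype.card ι₁) := by
      refine card_image_le.trans ?_
      simp
    have h4 : W₀.card ≤ N * 30 + (Fintype.card ι₀ + Fintype.card ι₁ +
        N * 9 * (Fintype.card ι₀ + Fintype.card ι₁)) :=
      (card_union_le _ _).trans (Nat.add_le_add h1 ((card_union_le _ _).trans
        (Nat.add_le_add h2 h3)))
    calc W₀.card ≤ _ := h4
      _ = 30 * N + (Fintype.card ι₀ + Fintype.card ι₁) * (9 * N + 1) := by ring
      _ ≤ K := hK
  refine ⟨g, fun i => v (Sum.inl i), fun i => v (Sum.inr i), p, W₀, hg, hg', ⟨?_, ?_, ?_, ?_, ?_,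
    ?_, hpath, ?_, ?_, ?_, ?_⟩, hcard, fun i => hvmem _, fun i => hvmem _, ?_⟩
  · exact fun i j h => Sum.inl_injective (hv h)
  · exact fun i j h => Sum.inr_injective (hv h)
  · intro i j h
    exact absurd (hv h) (by simp)
  · exact fun i j => hvv _ _
  · exact fun i j => hvv _ _
  · exact fun i j => hvv _ _
  · intro e
    have e1 : (p e).length = (D e).length + (hp F (I (l e)) (ref (l e)) (f (l e) (x e))).length +
        (hp F (I (l' e)) (ref (l' e)) (f (l' e) (y e))).length + 2 := by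
      rw [hp']
      simp only [List.length_cons, List.length_append, List.length_reverse, List.length_nil]
      ring
    have e2 := (hres (Sum.inl (a e)) (l e)).2
    have e3 := (hres (Sum.inr (b e)) (l' e)).2
    have e4 := (hD e).len
    rw [e1, ← e4, ← e2, ← e3]
    have m1 := Nat.mod_modEq (hp F (I (l e)) (ref (l e)) (f (l e) (x e))).length q
    have m2 := Nat.mod_modEq (hp F (I (l' e)) (ref (l' e)) (f (l' e) (y e))).length q
    have m3 := (((Nat.ModEq.refl (D e).length).add m1).add m2).add (Nat.ModEq.refl 2)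
    exact m3.symm
  · intro e i hi z hz w hw
    rw [List.mem_singleton] at hz
    subst hz
    exact hcent e _ (fun h => hi (Sum.inl_injective h)) (by simp) w hw
  · intro e i hi z hz w hw
    rw [List.mem_singleton] at hz
    subst hz
    exact hcent e _ (by simp) (fun h => hi (Sum.inr_injective h)) w hw
  · intro e e' hee z hz w hw
    exact C.part_anti (fun h => hee (hu h)) (hpart e z hz) (hpart e' w hw)
  · intro e z hz
    rcases hmem e z hz with h | h | h | h | h
    · rw [h]; exact Or.inl (hfmem _ _)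
    · exact Or.inr ⟨_, h⟩
    · exact Or.inl (hWmem _ z ((hD e).mem z h))
    · exact Or.inr ⟨_, h⟩
    · rw [h]; exact Or.inl (hfmem _ _)

end Pool.Agent.Helper32.PD
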